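import Pool.Agent.helper3.HPC.Lower
import Pool.Agent.helper3.HPC.Upper
import Pool.Agent.helper3.HPC.Vals

/-!
# Detecting a planted `k`-partite hyperclique with constant depth circuits

`Hyp (Fin n) s` is the set of `s`-uniform hypergraphs on `Fin n`.  A partition into `k` blocks of
size `n / k` is a map `blk : Fin n → Fin k` all of whose fibres have `n / k` elements.
`errI f` is the probability that the test `f` accepts a uniformly random hypergraph, and
`errII blk f` the probability that `f` rejects a uniformly random hypergraph to which all edges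
inside a uniformly random transversal of the partition are added.

`Circuit (Hyp (Fin n) s) ι d` is a circuit with gates indexed by `ι`, unbounded fan-in
conjunctions and disjunctions, free negations, and depth at most `d` (input gates not counted);
`C.LocalInputs r` says that every input gate is a function of the edges spanned by some `r`
vertices (`r = s`: functions of a single possible edge), and `C.Vals v` that `v i x` is the value
of the gate `i` on the input `x` (there is exactly one such `v`: `Circuit.existsUnique_vals`).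
-/

namespace Pool.Agent.Results.MP_cd862b_lc.ConstantDepth

open Pool.Agent.helper3.HPC

/-- **Depth `d` circuits need size `n ^ Θ((log n) ^ (1 / (s - 1)))` to detect a planted `k`-partite
`s`-uniform hyperclique, for all `K (log n) ^ (1 / (s - 1)) ≤ k ≤ n ^ (1 - ε)`.** -/
theorem result (s : ℕ) (hs : 2 ≤ s) :
    -- the lower bound on the size
    (∀ (d : ℕ) (ε : ℝ), 0 < ε → ε ≤ 1 →
      ∃ c > (0 : ℝ), ∃ η > (0 : ℝ), ∃ n₀ : ℕ, ∀ n ≥ n₀, ∀ k : ℕ, 0 < k → k ∣ n →
        (k : ℝ) ≤ (n : ℝ) ^ (1 - ε) → ∀ blk : Fin n → Fin k,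
        (∀ j, Fintype.card {w : Fin n // blk w = j} = n / k) →
        ∀ (ι : Type) [Fintype ι] (C : Circuit (Hyp (Fin n) s) ι d) (r : ℕ)
          (v : ι → Hyp (Fin n) s → Bool),
          (Fintype.card ι : ℝ) ≤ (n : ℝ) ^ (c * (Real.log n) ^ (1 / ((s : ℝ) - 1))) →
          (r : ℝ) ≤ c * (Real.log n) ^ (1 / ((s : ℝ) - 1)) → C.LocalInputs r → C.Vals v →
          ∀ i, 1 - (n : ℝ) ^ (-η) ≤ errI (v i) + errII blk (v i)) ∧
    -- the upper bound on the size
    (∃ K > (0 : ℝ), ∃ n₀ : ℕ, ∀ n ≥ n₀, ∀ k : ℕ,
      K * (Real.log n) ^ (1 / ((s : ℝ) - 1)) ≤ k → ∀ blk : Fin n → Fin k,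
      ∃ (ι : Type) (_ : Fintype ι) (C : Circuit (Hyp (Fin n) s) ι 2)
        (v : ι → Hyp (Fin n) s → Bool) (i : ι),
        (Fintype.card ι : ℝ) ≤ (n : ℝ) ^ (K * (Real.log n) ^ (1 / ((s : ℝ) - 1))) ∧
        C.LocalInputs s ∧ C.Vals v ∧ errI (v i) ≤ 1 / n ∧ errII blk (v i) = 0) :=
  ⟨fun d ε h0 h1 => lower s d hs ε h0 h1, upper s hs⟩

end Pool.Agent.Results.MP_cd862b_lc.ConstantDepth
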